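import Pool.Agent.helper7.BQ.Spec

set_option autoImplicit false

namespace Pool.Agent.BQ

open Finset ArithmeticFunction

private theorem USB_key (θ : ℝ) (A K₀ Y₀ : ℕ) (hθ : 0 < θ)
    (hY₀ : ∀ Y : ℕ, Y₀ ≤ Y → ∀ Q : ℕ, Real.log Y ^ K₀ ≤ Q → (Q : ℝ) ≤ Real.log Y ^ (K₀ + 1) → ∀ B : ℕ,
      (Y : ℝ) ^ (1 / 2 + θ / 3) ≤ B → B ≤ Y → ∀ α : ℝ,
      WS (fl Q) Y B α ≤ Y * (B : ℝ) ^ 2 / Real.log Y ^ (A + 1))
    (x : ℕ) (hxY : Y₀ ≤ x) (hx2 : 2 ≤ x) (h1 : (3 : ℝ) ^ K₀ + 36 ≤ Real.log x)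
    (h2 : (20 : ℝ) ^ (1 / 2 + θ / 3) ≤ (x : ℝ) ^ (θ / 3)) (B : ℕ)
    (hB1 : (x : ℝ) ^ (1 + θ) ≤ B) (hB2 : B ≤ x ^ 2) (α : ℝ) (c : ℕ) (hc5 : 1 ≤ c) (hc20 : c ≤ 20) :
    WS (fl ⌊Real.log x ^ (K₀ + 1)⌋₊) (c * x ^ 2) B α ≤
      (c : ℝ) * (x : ℝ) ^ 2 * (B : ℝ) ^ 2 / Real.log x ^ (A + 1) := by
  have hx0 : (0 : ℝ) < x := by positivity
  have hx1 : (1 : ℝ) ≤ x := by exact_mod_cast (by omega : 1 ≤ x)
  have hc0 : (0 : ℝ) < c := by exact_mod_cast hc5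
  have hc1 : (1 : ℝ) ≤ c := by exact_mod_cast hc5
  have hc2 : (c : ℝ) ≤ 20 := by exact_mod_cast hc20
  have h3 : (0 : ℝ) < (3 : ℝ) ^ K₀ := by positivity
  have hl1 : (1 : ℝ) ≤ Real.log x := by linarith
  have hl0 : (0 : ℝ) < Real.log x := by linarith
  have hcast : ((c * x ^ 2 : ℕ) : ℝ) = (c : ℝ) * (x : ℝ) ^ 2 := by push_cast; ring
  have hxle : x ≤ c * x ^ 2 := by nlinarith [Nat.pos_of_ne_zero (by omega : x ≠ 0)]
  have hlogY : Real.log x ≤ Real.log ((c * x ^ 2 : ℕ) : ℝ) := by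
    apply Real.log_le_log hx0
    exact_mod_cast hxle
  have hlog20 : Real.log 20 ≤ 36 := by
    have := Real.log_le_sub_one_of_pos (show (0 : ℝ) < 20 by norm_num)
    linarith
  have hlogY2 : Real.log ((c * x ^ 2 : ℕ) : ℝ) ≤ 3 * Real.log x := by
    rw [hcast, Real.log_mul (ne_of_gt hc0) (by positivity), Real.log_pow]
    have : Real.log c ≤ Real.log 20 := Real.log_le_log hc0 hc2
    push_cast
    linarith
  have hQ1 : Real.log ((c * x ^ 2 : ℕ) : ℝ) ^ K₀ ≤ (⌊Real.log x ^ (K₀ + 1)⌋₊ : ℝ) := by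
    have hfl : Real.log x ^ (K₀ + 1) - 1 ≤ (⌊Real.log x ^ (K₀ + 1)⌋₊ : ℝ) := by
      have := Nat.lt_floor_add_one (Real.log x ^ (K₀ + 1))
      linarith
    have hp : Real.log ((c * x ^ 2 : ℕ) : ℝ) ^ K₀ ≤ (3 * Real.log x) ^ K₀ :=
      pow_le_pow_left₀ (by linarith) hlogY2 _
    rw [mul_pow] at hp
    have hk1 : (1 : ℝ) ≤ Real.log x ^ K₀ := one_le_pow₀ hl1
    have : Real.log x ^ (K₀ + 1) = Real.log x ^ K₀ * Real.log x := pow_succ _ _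
    nlinarith [mul_le_mul_of_nonneg_left h1 (by linarith : (0 : ℝ) ≤ Real.log x ^ K₀)]
  have hQ2 : (⌊Real.log x ^ (K₀ + 1)⌋₊ : ℝ) ≤ Real.log ((c * x ^ 2 : ℕ) : ℝ) ^ (K₀ + 1) := by
    calc (⌊Real.log x ^ (K₀ + 1)⌋₊ : ℝ) ≤ Real.log x ^ (K₀ + 1) := Nat.floor_le (by positivity)
      _ ≤ _ := pow_le_pow_left₀ hl0.le hlogY _
  have hB : ((c * x ^ 2 : ℕ) : ℝ) ^ (1 / 2 + θ / 3) ≤ B := by
    rw [hcast, Real.mul_rpow hc0.le (by positivity)]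
    have e1 : (c : ℝ) ^ (1 / 2 + θ / 3) ≤ (x : ℝ) ^ (θ / 3) :=
      (Real.rpow_le_rpow hc0.le hc2 (by positivity)).trans h2
    have e2 : ((x : ℝ) ^ 2) ^ (1 / 2 + θ / 3) = (x : ℝ) ^ (1 + 2 * θ / 3) := by
      rw [← Real.rpow_natCast (x : ℝ) 2, ← Real.rpow_mul hx0.le]
      congr 1
      push_cast
      ring
    rw [e2]
    calc (c : ℝ) ^ (1 / 2 + θ / 3) * (x : ℝ) ^ (1 + 2 * θ / 3)
        ≤ (x : ℝ) ^ (θ / 3) * (x : ℝ) ^ (1 + 2 * θ / 3) :=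
          mul_le_mul_of_nonneg_right e1 (by positivity)
      _ = (x : ℝ) ^ (1 + θ) := by
          rw [← Real.rpow_add hx0]
          congr 1
          ring
      _ ≤ B := hB1
  have hBY : B ≤ c * x ^ 2 := hB2.trans (Nat.le_mul_of_pos_left _ hc5)
  have h := hY₀ (c * x ^ 2) (hxY.trans hxle) _ hQ1 hQ2 B hB hBY α
  refine h.trans ?_
  rw [hcast]
  apply div_le_div_of_nonneg_left (by positivity) (by positivity)
  exact pow_le_pow_left₀ hl0.le (by rw [← hcast]; exact hlogY) _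

theorem USB (h1 : UNI_stmt) : USB_stmt := by
  intro θ A hθ
  obtain ⟨K₀, hK₀⟩ := h1 (θ / 3) (A + 1) (by positivity)
  obtain ⟨Y₀, hY₀⟩ := hK₀ (K₀ + 1) (by omega)
  have e1 : ∀ᶠ x : ℕ in Filter.atTop, (3 : ℝ) ^ K₀ + 36 ≤ Real.log x :=
    (Real.tendsto_log_atTop.comp tendsto_natCast_atTop_atTop).eventually_ge_atTop _
  have e2 : ∀ᶠ x : ℕ in Filter.atTop, (20 : ℝ) ^ (1 / 2 + θ / 3) ≤ (x : ℝ) ^ (θ / 3) :=
    ((tendsto_rpow_atTop (by positivity)).comp tendsto_natCast_atTop_atTop).eventually_ge_atTop _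
  obtain ⟨x₁, hx₁⟩ := Filter.eventually_atTop.1 (e1.and e2)
  refine ⟨K₀ + 1, max x₁ (max Y₀ 2), fun x hx B hB1 hB2 α => ?_⟩
  have hxa : x₁ ≤ x := le_trans (le_max_left _ _) hx
  have hxb : Y₀ ≤ x := le_trans (le_trans (le_max_left _ _) (le_max_right _ _)) hx
  have hxc : 2 ≤ x := le_trans (le_trans (le_max_right _ _) (le_max_right _ _)) hx
  obtain ⟨g1, g2⟩ := hx₁ x hxa
  have key := USB_key θ A K₀ Y₀ hθ hY₀ x hxb hxc g1 g2 B hB1 hB2 α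
  have k5 := key 5 (by norm_num) (by norm_num)
  have k10 := key 10 (by norm_num) (by norm_num)
  have k20 := key 20 (by norm_num) (by norm_num)
  set F := fl ⌊Real.log x ^ (K₀ + 1)⌋₊ with hF
  have hsum : US F x B α = WS F (5 * x ^ 2) B α + WS F (10 * x ^ 2) B α + WS F (20 * x ^ 2) B α := by
    unfold US WS
    have a1 : 2 * (5 * x ^ 2) = 10 * x ^ 2 := by ring
    have a2 : 2 * (10 * x ^ 2) = 20 * x ^ 2 := by ring
    have a3 : 2 * (20 * x ^ 2) = 40 * x ^ 2 := by ring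
    rw [a1, a2, a3, Finset.sum_Ico_consecutive _ (by omega) (by omega),
      Finset.sum_Ico_consecutive _ (by omega) (by omega)]
  rw [hsum]
  have h3 : (0 : ℝ) < (3 : ℝ) ^ K₀ := by positivity
  have hl : (36 : ℝ) ≤ Real.log x := by linarith
  have hl0 : (0 : ℝ) < Real.log x := by linarith
  have hfin : 35 * ((x : ℝ) ^ 2 * (B : ℝ) ^ 2) / Real.log x ^ (A + 1) ≤
      (x : ℝ) ^ 2 * (B : ℝ) ^ 2 / Real.log x ^ A := by
    rw [div_le_div_iff₀ (by positivity) (by positivity), pow_succ (Real.log x) A]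
    have hz : (0 : ℝ) ≤ (x : ℝ) ^ 2 * (B : ℝ) ^ 2 * Real.log x ^ A := by positivity
    have hz2 := mul_nonneg hz (by linarith : (0 : ℝ) ≤ Real.log x - 35)
    linarith
  have e : ((5 : ℕ) : ℝ) * (x : ℝ) ^ 2 * (B : ℝ) ^ 2 / Real.log x ^ (A + 1) +
      ((10 : ℕ) : ℝ) * (x : ℝ) ^ 2 * (B : ℝ) ^ 2 / Real.log x ^ (A + 1) +
      ((20 : ℕ) : ℝ) * (x : ℝ) ^ 2 * (B : ℝ) ^ 2 / Real.log x ^ (A + 1) =
      35 * ((x : ℝ) ^ 2 * (B : ℝ) ^ 2) / Real.log x ^ (A + 1) := by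
    push_cast
    ring
  linarith

end Pool.Agent.BQ
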